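import Mathlib

set_option autoImplicit false

namespace Pool.Agent.Results.MP_8c8deb_an.NotUniform

/-- `prod A B n = A_n B_n ⋯ A_1 B_1`, where `A_k = A (k - 1)` and `B_k = B (k - 1)`. -/
def prod {d : ℕ} (A B : ℕ → Matrix (Fin d) (Fin d) ℝ) : ℕ → Matrix (Fin d) (Fin d) ℝ
  | 0 => 1
  | n + 1 => A n * B n * prod A B n

/-- All entries of all the products are at most `C` in absolute value. -/
def Bdd {d : ℕ} (A B : ℕ → Matrix (Fin d) (Fin d) ℝ) (C : ℝ) : Prop :=
  ∀ n i j, |prod A B n i j| ≤ C

abbrev M := Matrix (Fin 4) (Fin 4) ℝ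

def A1 : M := !![0, 0, 0, 0; 1, 1, 0, 0; 0, 0, 1, 1; 0, 0, 0, 1]
def A2 : M := !![2, 2, 0, 0; 0, 0, 0, 0; 0, 0, 0, 0; 0, 0, 0, 0]
def B1 : M := !![0, 0, 0, 0; 0, 1, 0, 0; 0, 0, 1, 0; 1, 0, 0, 1]
def B2 : M := !![1, 0, 0, 0; 0, 1, 0, 1; 0, 0, 0, 0; 0, 0, 0, 0]

lemma fin_bdd (A B : ℕ → M) (N : ℕ) (C : ℝ) (h : ∀ n ≥ N, ∀ i j, |prod A B n i j| ≤ C) :
    ∃ C, Bdd A B C := by
  obtain ⟨D, hD⟩ := (Set.finite_range fun p : Fin N × Fin 4 × Fin 4 =>
    |prod A B p.1 p.2.1 p.2.2|).bddAbove
  refine ⟨max C D, fun n i j => ?_⟩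
  rcases lt_or_ge n N with c | c
  · exact le_max_of_le_right (hD ⟨(⟨n, c⟩, i, j), rfl⟩)
  · exact le_max_of_le_left (h n c i j)

theorem result : ∃ (d : ℕ) (𝒜 ℬ : Finset (Matrix (Fin d) (Fin d) ℝ)), 𝒜.Nonempty ∧ ℬ.Nonempty ∧
    (∀ A : ℕ → Matrix (Fin d) (Fin d) ℝ, (∀ n, A n ∈ 𝒜) →
      ∃ B : ℕ → Matrix (Fin d) (Fin d) ℝ, (∀ n, B n ∈ ℬ) ∧ ∃ C, Bdd A B C) ∧
    ¬ ∃ C, ∀ A : ℕ → Matrix (Fin d) (Fin d) ℝ, (∀ n, A n ∈ 𝒜) →
      ∃ B : ℕ → Matrix (Fin d) (Fin d) ℝ, (∀ n, B n ∈ ℬ) ∧ Bdd A B C := by
  classical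
  refine ⟨4, {A1, A2}, {B1, B2}, by simp, by simp, fun A hA => ?_, ?_⟩
  · simp only [Finset.mem_insert, Finset.mem_singleton] at hA ⊢
    by_cases h : ∃ N, ∀ n ≥ N, A n = A1
    · obtain ⟨N, hN⟩ := h
      have key : ∀ k, prod A (fun _ => B2) (N + 1 + k) = prod A (fun _ => B2) (N + 1) := by
        intro k
        induction k with
        | zero => rfl
        | succ k ih =>
          rw [← add_assoc, prod, ih, prod, hN _ (by omega), hN N le_rfl, ← Matrix.mul_assoc]
          congr 1
          simp [A1, B2, ← Matrix.ext_iff, Fin.forall_fin_succ]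
          ext i
          fin_cases i <;> rfl
      obtain ⟨D, hD⟩ := (Set.finite_range fun p : Fin 4 × Fin 4 =>
        |prod A (fun _ => B2) (N + 1) p.1 p.2|).bddAbove
      refine ⟨fun _ => B2, fun _ => Or.inr rfl, fin_bdd _ _ (N + 1) D fun n hn i j => ?_⟩
      obtain ⟨k, rfl⟩ := Nat.exists_eq_add_of_le hn
      rw [key]
      exact hD ⟨(i, j), rfl⟩
    · push Not at h
      have h2 : ∀ N, ∃ n ≥ N, A n = A2 := fun N => by
        obtain ⟨n, h1, h2⟩ := h N
        exact ⟨n, h1, (hA n).resolve_left h2⟩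
      obtain ⟨a, -, ha⟩ := h2 0
      obtain ⟨b, hb, hb2⟩ := h2 (a + 1)
      have k1 : ∀ k, !![0, 1, 0, 0; 0, 0, 0, 0; 0, 0, 0, 0; 0, 0, 0, 0] *
          prod A (fun _ => B1) (a + 1 + k) = 0 := by
        intro k
        induction k with
        | zero =>
          rw [add_zero, prod, ha, ← Matrix.mul_assoc]
          simp [A2, B1, ← Matrix.ext_iff, Fin.forall_fin_succ, Matrix.mul_apply]
        | succ k ih =>
          rw [← add_assoc, prod, ← Matrix.mul_assoc]
          rcases hA (a + 1 + k) with e | e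
          · rw [e]
            refine Eq.trans (congrArg (· * _) ?_) ih
            simp [A1, B1, ← Matrix.ext_iff, Fin.forall_fin_succ]
            ext i
            fin_cases i <;> rfl
          · rw [e]
            simp [A2, B1, ← Matrix.ext_iff, Fin.forall_fin_succ, Matrix.mul_apply]
      have k2 : ∀ k, prod A (fun _ => B1) (b + 1 + k) = 0 := by
        intro k
        induction k with
        | zero =>
          obtain ⟨k, rfl⟩ := Nat.exists_eq_add_of_le hb
          rw [add_zero, prod, hb2]
          have : A2 * B1 = (2 : ℝ) • !![0, 1, 0, 0; 0, 0, 0, 0; 0, 0, 0, 0; 0, 0, 0, 0] := by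
            simp [A2, B1, ← Matrix.ext_iff, Fin.forall_fin_succ]
            ext i
            fin_cases i <;> rfl
          rw [this, Matrix.smul_mul, k1, smul_zero]
        | succ k ih => rw [← add_assoc, prod, ih, Matrix.mul_zero]
      refine ⟨fun _ => B1, fun _ => Or.inl rfl, fin_bdd _ _ (b + 1) 0 fun n hn i j => ?_⟩
      obtain ⟨k, rfl⟩ := Nat.exists_eq_add_of_le hn
      simp [k2]
  · rintro ⟨C, h⟩
    obtain ⟨N, hN⟩ := exists_nat_gt C
    obtain ⟨B, hB, hC⟩ := h (fun n => if n % (N + 1) = N then A2 else A1) fun n => by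
      split_ifs <;> simp
    simp only [Finset.mem_insert, Finset.mem_singleton] at hB
    set P := prod (fun n => if n % (N + 1) = N then A2 else A1) B with hP
    have hs : ∀ n, P (n + 1) = (if n % (N + 1) = N then A2 else A1) * B n * P n := fun n => rfl
    have inner : ∀ t : ℕ, ∀ l : ℝ, 1 ≤ l → (fun i => P (t * (N + 1)) i 0) = ![l, 0, 0, 0] →
        ∀ k : ℕ, k + 1 ≤ N → (fun i => P (t * (N + 1) + k + 1) i 0) = ![0, l, 0, 0] ∨
          (fun i => P (t * (N + 1) + k + 1) i 0) = ![0, 0, (k + 1) * l, l] := by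
      intro t l hl h0 k
      induction k with
      | zero =>
        intro hk
        have e := congrFun h0
        simp only [Fin.forall_fin_succ] at e
        rw [hs, if_neg (by simp; omega)]
        rcases hB (t * (N + 1) + 0) with c | c
        · right
          funext i
          fin_cases i <;> simp_all [A1, B1, Matrix.mul_apply, Fin.sum_univ_four]
        · left
          funext i
          fin_cases i <;> simp_all [A1, B2, Matrix.mul_apply, Fin.sum_univ_four]
      | succ k ih =>
        intro hk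
        have hm : ¬ (t * (N + 1) + (k + 1)) % (N + 1) = N := by
          rw [add_comm, Nat.add_mul_mod_self_right, Nat.mod_eq_of_lt (by omega)]
          omega
        rw [hs, if_neg hm, ← add_assoc]
        rcases ih (by omega) with e | e <;> have e := congrFun e <;>
          simp only [Fin.forall_fin_succ] at e <;> rcases hB (t * (N + 1) + k + 1) with c | c
        · left
          funext i
          fin_cases i <;> simp_all [A1, B1, Matrix.mul_apply, Fin.sum_univ_four]
        · left
          funext i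
          fin_cases i <;> simp_all [A1, B2, Matrix.mul_apply, Fin.sum_univ_four]
        · right
          funext i
          fin_cases i <;> simp_all [A1, B1, Matrix.mul_apply, Fin.sum_univ_four]
          ring
        · left
          funext i
          fin_cases i <;> simp_all [A1, B2, Matrix.mul_apply, Fin.sum_univ_four]
    have hC1 : (1 : ℝ) ≤ C := by simpa [prod] using hC 0 0 0
    obtain ⟨K, rfl⟩ : ∃ K, N = K + 1 := ⟨N - 1, by
      have : (1 : ℝ) < N := by linarith
      have : 1 < N := by exact_mod_cast this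
      omega⟩
    have outer : ∀ t : ℕ, (fun i => P (t * (K + 1 + 1)) i 0) = ![2 ^ t, 0, 0, 0] := by
      intro t
      induction t with
      | zero =>
        funext i
        fin_cases i <;> simp [hP, prod]
      | succ t ih =>
        have h1 : (1 : ℝ) ≤ 2 ^ t := one_le_pow₀ (by norm_num)
        rcases inner t _ h1 ih K le_rfl with e | e
        · have e := congrFun e
          simp only [Fin.forall_fin_succ] at e
          rw [show (t + 1) * (K + 1 + 1) = t * (K + 1 + 1) + K + 1 + 1 by ring, hs, if_pos (by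
            rw [add_assoc, add_comm, Nat.add_mul_mod_self_right, Nat.mod_eq_of_lt (by omega)])]
          funext i
          rcases hB (t * (K + 1 + 1) + K + 1) with c | c <;> fin_cases i <;>
            simp_all [A2, B1, B2, Matrix.mul_apply, Fin.sum_univ_four, pow_succ, mul_comm]
        · have e := congrFun e 2
          have := (abs_le.1 (hC (t * (K + 1 + 1) + K + 1) 2 0)).2
          simp only [Matrix.cons_val] at e
          push_cast at hN
          rw [← hP, e] at this
          nlinarith
    have e := congrFun (outer (K + 1)) 0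
    have := (abs_le.1 (hC ((K + 1) * (K + 1 + 1)) 0 0)).2
    simp only [Matrix.cons_val_zero] at e
    rw [← hP, e] at this
    have h2 : ((K + 1 : ℕ) : ℝ) < 2 ^ (K + 1) := by exact_mod_cast Nat.lt_two_pow_self
    linarith

end Pool.Agent.Results.MP_8c8deb_an.NotUniform
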